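import Mathlib

set_option autoImplicit false

/-!
# The transfer lemma

`C` a subring of `B`, `u` an element of `C`, `F n` an increasing family of subgroups of `C` (the degree
modules), `W l` the elements of `C` which are divisible by `u ^ l` in `B`. If for every `n` some element of
`W (l n)` is congruent modulo `u C` to an element of `F n` and these elements generate `C` modulo `u C`
(`monic of degree n`), then such elements exist in `F n` itself.
-/

namespace Pool.Agent.LNDR

open Set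

/-- Every element of `C` is, modulo `F n`, divisible by `u ^ l` in `B`. -/
lemma onto_aux {B : Type*} [CommRing B] (C : Subring B) (u : B) (hu : u ∈ C)
    (F : AddSubgroup B) (hFu : ∀ x ∈ F, u * x ∈ F) (l : ℕ)
    (hgen : ∀ c ∈ C, ∃ a ∈ F, ∃ s ∈ C, u ^ l ∣ s ∧ ∃ c' ∈ C, c = a + s + u * c') :
    ∀ c ∈ C, ∃ a ∈ F, ∃ s ∈ C, u ^ l ∣ s ∧ c = a + s := by
  have key : ∀ j : ℕ, ∀ c ∈ C, ∃ a ∈ F, ∃ s ∈ C, u ^ l ∣ s ∧ ∃ c' ∈ C, c = a + s + u ^ j * c' := by
    intro j
    induction j with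
    | zero => exact fun c hc => ⟨0, F.zero_mem, 0, C.zero_mem, dvd_zero _, c, hc, by simp⟩
    | succ j ih =>
      intro c hc
      obtain ⟨a, ha, s, hs, hsl, c', hc', he⟩ := ih c hc
      obtain ⟨a', ha', s', hs', hsl', c'', hc'', he'⟩ := hgen c' hc'
      have hF : ∀ i : ℕ, ∀ x ∈ F, u ^ i * x ∈ F := by
        intro i
        induction i with
        | zero => intro x hx; simpa using hx
        | succ i ihi =>
          intro x hx
          have := hFu _ (ihi x hx)
          rwa [← mul_assoc, ← pow_succ'] at this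
      refine ⟨a + u ^ j * a', F.add_mem ha (hF j a' ha'), s + u ^ j * s',
        C.add_mem hs (C.mul_mem (C.pow_mem hu j) hs'), dvd_add hsl (hsl'.mul_left _), c'', hc'', ?_⟩
      rw [he, he', pow_succ]
      ring
  intro c hc
  obtain ⟨a, ha, s, hs, hsl, c', hc', he⟩ := key l c hc
  refine ⟨a, ha, s + u ^ l * c', C.add_mem hs (C.mul_mem (C.pow_mem hu l) hc'),
    dvd_add hsl (Dvd.intro _ rfl), by rw [he]; ring⟩

/-- **Transfer lemma.** -/
theorem transfer {B : Type*} [CommRing B] (C : Subring B) (u : B) (hu : u ∈ C)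
    (F : ℕ → AddSubgroup B) (hFu : ∀ n, ∀ x ∈ F n, u * x ∈ F n)
    (A : Subring B) (hA : A ≤ C) (l : ℕ → ℕ) (hl : Monotone l) (w : ℕ → B)
    (hwC : ∀ n, w n ∈ C) (hwu : ∀ n, u ^ l n ∣ w n)
    (hwn : ∀ n, ∃ a ∈ F n, ∃ c ∈ C, w n = a + u * c)
    (hgen : ∀ n, ∀ c ∈ C, ∃ a ∈ F n, ∃ s ∈ Submodule.span A (w '' Ioi n), ∃ c' ∈ C,
      c = a + s + u * c') (n : ℕ) :
    ∃ z ∈ F n, u ^ l n ∣ z ∧ ∃ c ∈ C, z = w n + u * c := by
  have hspan : ∀ s ∈ Submodule.span A (w '' Ioi n), s ∈ C ∧ u ^ l n ∣ s := by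
    intro s hs
    induction hs using Submodule.span_induction with
    | mem x hx =>
      obtain ⟨i, hi, rfl⟩ := hx
      exact ⟨hwC i, (pow_dvd_pow u (hl (le_of_lt hi))).trans (hwu i)⟩
    | zero => exact ⟨C.zero_mem, dvd_zero _⟩
    | add x y _ _ hx hy => exact ⟨C.add_mem hx.1 hy.1, dvd_add hx.2 hy.2⟩
    | smul a x _ hx =>
      rw [Subring.smul_def, smul_eq_mul]
      exact ⟨C.mul_mem (hA a.2) hx.1, hx.2.mul_left _⟩
  rcases Nat.eq_zero_or_pos (l n) with h0 | h0
  · obtain ⟨a, ha, c, hc, he⟩ := hwn n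
    exact ⟨a, ha, by rw [h0, pow_zero]; exact one_dvd _, -c, C.neg_mem hc, by rw [he]; ring⟩
  obtain ⟨m, hm⟩ : ∃ m, l n = m + 1 := ⟨l n - 1, by omega⟩
  have honto := onto_aux C u hu (F n) (hFu n) m (fun c hc => by
    obtain ⟨a, ha, s, hs, c', hc', he⟩ := hgen n c hc
    exact ⟨a, ha, s, (hspan s hs).1, (pow_dvd_pow u (by omega)).trans (hspan s hs).2, c', hc', he⟩)
  obtain ⟨a, ha, c, hc, he⟩ := hwn n
  obtain ⟨a', ha', s', hs', hsl', he'⟩ := honto c hc
  refine ⟨a + u * a', (F n).add_mem ha (hFu n a' ha'), ?_, -s', C.neg_mem hs', ?_⟩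
  · have h1 : a + u * a' = w n - u * s' := by rw [he, he']; ring
    rw [h1]
    refine dvd_sub (hwu n) ?_
    rw [hm, pow_succ']
    exact mul_dvd_mul_left u hsl'
  · rw [he, he']; ring

/-- The generation hypothesis of `transfer` from a basis: `C` is generated over `A` by elements `y i`,
`F n` contains the `y i` with `i ≤ n`, and `w i` is a unit times `y i` plus an element of
the span of the `y j`, `j < i`, modulo `u C`. -/
theorem gen_of_monic {B : Type*} [CommRing B] (C : Subring B) (u : B)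
    (F : ℕ → AddSubgroup B) (A : Subring B) (hA : A ≤ C)
    (hFA : ∀ n, ∀ a ∈ A, ∀ x ∈ F n, a * x ∈ F n) (y w : ℕ → B)
    (hyF : ∀ n, ∀ i ≤ n, y i ∈ F n)
    (hyC : ∀ c ∈ C, c ∈ Submodule.span A (range y))
    (hw : ∀ i, ∃ a ∈ A, ∃ b ∈ A, a * b = 1 ∧ ∃ s ∈ Submodule.span A (y '' Iio i), ∃ c ∈ C,
      w i = a * y i + s + u * c) (n : ℕ) (c : B) (hc : c ∈ C) :
    ∃ a ∈ F n, ∃ s ∈ Submodule.span A (w '' Ioi n), ∃ c' ∈ C, c = a + s + u * c' := by
  -- the set of the elements which have such a decomposition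
  let P : Submodule A B :=
    { carrier := {x | ∃ a ∈ F n, ∃ s ∈ Submodule.span A (w '' Ioi n), ∃ c' ∈ C, x = a + s + u * c'}
      add_mem' := by
        rintro x x' ⟨a, ha, s, hs, c, hc, rfl⟩ ⟨a', ha', s', hs', c', hc', rfl⟩
        exact ⟨a + a', (F n).add_mem ha ha', s + s', Submodule.add_mem _ hs hs', c + c',
          C.add_mem hc hc', by ring⟩
      zero_mem' := ⟨0, (F n).zero_mem, 0, Submodule.zero_mem _, 0, C.zero_mem, by ring⟩
      smul_mem' := by
        rintro r x ⟨a, ha, s, hs, c, hc, rfl⟩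
        refine ⟨r * a, hFA n r r.2 a ha, r • s, Submodule.smul_mem _ r hs, r * c,
          C.mul_mem (hA r.2) hc, ?_⟩
        rw [Subring.smul_def, Subring.smul_def, smul_eq_mul, smul_eq_mul]
        ring }
  have hy : ∀ i, y i ∈ P := by
    intro i
    induction i using Nat.strong_induction_on with
    | _ i ih =>
      rcases le_or_gt i n with hi | hi
      · exact ⟨y i, hyF n i hi, 0, Submodule.zero_mem _, 0, C.zero_mem, by ring⟩
      · obtain ⟨a, ha, b, hb, hab, s, hs, c, hc, he⟩ := hw i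
        have h1 : w i ∈ P := ⟨0, (F n).zero_mem, w i,
          Submodule.subset_span ⟨i, hi, rfl⟩, 0, C.zero_mem, by ring⟩
        have h2 : s ∈ P := by
          refine (Submodule.span_le.mpr ?_) hs
          rintro x ⟨j, hj, rfl⟩
          exact ih j hj
        have h3 : u * c ∈ P := ⟨0, (F n).zero_mem, 0, Submodule.zero_mem _, c, hc, by ring⟩
        have h4 : y i = (⟨b, hb⟩ : A) • (w i - s - u * c) := by
          rw [Subring.smul_def, smul_eq_mul, he]
          show y i = b * _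
          linear_combination (- y i) * hab
        rw [h4]
        exact P.smul_mem _ (P.sub_mem (P.sub_mem h1 h2) h3)
  have h5 : Submodule.span A (range y) ≤ P := by
    rw [Submodule.span_le]
    rintro x ⟨i, rfl⟩
    exact hy i
  exact h5 (hyC c hc)

end Pool.Agent.LNDR
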